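import Mathlib
import Pool.Agent.X202.ThmA

/-!
# Bounded extensions of biorthogonal functionals with dense sum (MP_b3b95b_an, Q1: yes)

Every minimal sequence `x` in a separable Banach space whose associated functionals `φ n` on the
closed linear span are uniformly bounded admits uniformly bounded extensions `f n` of the `φ n` to
the whole space such that `[x n] + [f n]_⊥` is dense.
-/

set_option autoImplicit false

open Topology

namespace Pool.Agent.Results.MP_b3b95b_an.BoundedExtensions

/-- The closed linear span of the sequence `x`. -/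
def closedSpan (𝕜 : Type) [RCLike 𝕜] {E : Type} [NormedAddCommGroup E] [NormedSpace 𝕜 E]
    (x : ℕ → E) : Submodule 𝕜 E := (Submodule.span 𝕜 (Set.range x)).topologicalClosure

lemma mem_closedSpan (𝕜 : Type) [RCLike 𝕜] {E : Type} [NormedAddCommGroup E] [NormedSpace 𝕜 E]
    (x : ℕ → E) (n : ℕ) : x n ∈ closedSpan 𝕜 x :=
  Submodule.le_topologicalClosure _ (Submodule.subset_span ⟨n, rfl⟩)

/-- **Positive answer to Q1.** Let `E` be a separable real or complex Banach space, `x` a minimal
sequence in `E` and `φ n` the associated functionals on the closed linear span of `x`. If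
`sup ‖φ n‖ < ∞` (for instance if `x` is strictly bounded), then there are extensions `f n` of the
`φ n` to `E` with `sup ‖f n‖ < ∞` such that the set of the sums `g + y` with `g` in the closed
linear span of `x` and `y` in the common kernel of the `f n` is dense in `E`. -/
theorem result (𝕜 : Type) [RCLike 𝕜] (E : Type) [NormedAddCommGroup E] [NormedSpace 𝕜 E]
    [CompleteSpace E] [TopologicalSpace.SeparableSpace E] (x : ℕ → E)
    (φ : ℕ → (closedSpan 𝕜 x →L[𝕜] 𝕜))
    (hφ : ∀ i j, φ i ⟨x j, mem_closedSpan 𝕜 x j⟩ = if i = j then 1 else 0)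
    (hb : ∃ C : ℝ, ∀ n, ‖φ n‖ ≤ C) :
    ∃ f : ℕ → (E →L[𝕜] 𝕜),
      (∀ (n : ℕ) (g : closedSpan 𝕜 x), f n (g : E) = φ n g) ∧
      (∃ D : ℝ, ∀ n, ‖f n‖ ≤ D) ∧
      Dense {v : E | ∃ g ∈ closedSpan 𝕜 x, ∃ y : E, (∀ n, f n y = 0) ∧ v = g + y} := by
  classical
  obtain ⟨C, hC⟩ := hb
  choose f₀ hf₀ hf₀n using fun n => exists_extension_norm_eq (closedSpan 𝕜 x) (φ n)
  have hb0 : ∀ i j, f₀ i (x j) = if i = j then 1 else 0 := by
    intro i j
    rw [← hφ i j]
    exact hf₀ i ⟨x j, mem_closedSpan 𝕜 x j⟩
  obtain ⟨F, D', z, h, h1, h2, h3, -, -, -, h7⟩ :=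
    Pool.Agent.X202.thmA x f₀ hb0 (fun n => (hf₀n n).le.trans (hC n))
  refine ⟨F, ?_, ⟨D', h1⟩, ?_⟩
  · intro n g
    have hcl : IsClosed {w : E | F n w = f₀ n w} :=
      isClosed_eq (F n).continuous (f₀ n).continuous
    have hsub : (Submodule.span 𝕜 (Set.range x) : Set E) ⊆ {w : E | F n w = f₀ n w} := by
      intro w hw
      change F n w = f₀ n w
      induction hw using Submodule.span_induction with
      | mem w hw => obtain ⟨k, rfl⟩ := hw; rw [h2, hb0]
      | zero => rw [map_zero, map_zero]
      | add a b _ _ ha hb => rw [map_add, map_add, ha, hb]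
      | smul c a _ ha => rw [map_smul, map_smul, ha]
    have hg : (g : E) ∈ {w : E | F n w = f₀ n w} := closure_minimal hsub hcl g.2
    rw [← hf₀ n g]
    exact hg
  · set S : Set E := {v : E | ∃ g ∈ closedSpan 𝕜 x, ∃ y : E, (∀ n, F n y = 0) ∧ v = g + y}
    have hsub : (Submodule.span 𝕜 (Set.range x ∪ Set.range z) : Set E) ⊆ S := by
      intro w hw
      induction hw using Submodule.span_induction with
      | mem w hw =>
        rcases hw with ⟨k, rfl⟩ | ⟨k, rfl⟩
        · exact ⟨x k, mem_closedSpan 𝕜 x k, 0, fun n => map_zero _, (add_zero _).symm⟩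
        · exact ⟨0, Submodule.zero_mem _, z k, fun n => h3 n k, (zero_add _).symm⟩
      | zero => exact ⟨0, Submodule.zero_mem _, 0, fun n => map_zero _, (add_zero _).symm⟩
      | add a b _ _ ha hb =>
        obtain ⟨g1, hg1, y1, hy1, rfl⟩ := ha
        obtain ⟨g2, hg2, y2, hy2, rfl⟩ := hb
        exact ⟨g1 + g2, Submodule.add_mem _ hg1 hg2, y1 + y2,
          fun n => by rw [map_add, hy1, hy2, add_zero], by abel⟩
      | smul c a _ ha =>
        obtain ⟨g1, hg1, y1, hy1, rfl⟩ := ha
        exact ⟨c • g1, Submodule.smul_mem _ _ hg1, c • y1,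
          fun n => by rw [map_smul, hy1, smul_zero], smul_add _ _ _⟩
    intro v
    have hv : v ∈ closure (Submodule.span 𝕜 (Set.range x ∪ Set.range z) : Set E) := by
      have : v ∈ (Submodule.span 𝕜 (Set.range x ∪ Set.range z)).topologicalClosure := by
        rw [h7]; trivial
      exact this
    exact closure_mono hsub hv

end Pool.Agent.Results.MP_b3b95b_an.BoundedExtensions
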